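import Mathlib

/-!
# Project HM: filters on a poset, the filter of generic events, and forcing of events
-/

set_option autoImplicit false

namespace Pool.Agent.Helper32.HM

open Set Filter

/-- Filters on the preorder `P`. -/
structure GF (P : Type) [Preorder P] where
  carrier : Set P
  nonempty : carrier.Nonempty
  up : ∀ p ∈ carrier, ∀ q, p ≤ q → q ∈ carrier
  dir : ∀ p ∈ carrier, ∀ q ∈ carrier, ∃ r ∈ carrier, r ≤ p ∧ r ≤ q

variable {P : Type} [Preorder P]

/-- The basic open set of the filters containing `p`. -/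
def O (p : P) : Set (GF P) := {G | p ∈ G.carrier}

/-- `D` is dense in `P`. -/
def DenseP (D : Set P) : Prop := ∀ p, ∃ q ∈ D, q ≤ p

/-- The generic events: sets of filters which contain all filters meeting countably many given
dense sets. -/
def aeG (P : Type) [Preorder P] : Filter (GF P) where
  sets := {E | ∃ D : ℕ → Set P, (∀ i, DenseP (D i)) ∧
    ∀ G : GF P, (∀ i, ∃ p ∈ D i, p ∈ G.carrier) → G ∈ E}
  univ_sets := ⟨fun _ => univ, fun _ p => ⟨p, mem_univ _, le_rfl⟩, fun _ _ => mem_univ _⟩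
  sets_of_superset := by
    rintro E F ⟨D, hD, h⟩ hEF
    exact ⟨D, hD, fun G hG => hEF (h G hG)⟩
  inter_sets := by
    rintro E F ⟨D, hD, h⟩ ⟨D', hD', h'⟩
    refine ⟨fun i => if i % 2 = 0 then D (i / 2) else D' (i / 2), ?_, ?_⟩
    · intro i
      dsimp only
      split
      · exact hD _
      · exact hD' _
    · intro G hG
      constructor
      · refine h G fun i => ?_
        have := hG (2 * i)
        simpa using this
      · refine h' G fun i => ?_
        have := hG (2 * i + 1)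
        have h1 : (2 * i + 1) % 2 = 1 := by omega
        have h2 : (2 * i + 1) / 2 = i := by omega
        simpa [h1, h2] using this

/-- `p` forces the event `E`. -/
def Fo (p : P) (E : Set (GF P)) : Prop := ∀ᶠ G in aeG P, G ∈ O p → G ∈ E

/-- `p` and `q` are compatible. -/
def Cmp (p q : P) : Prop := ∃ r, r ≤ p ∧ r ≤ q

/-- The σ-algebra generated by the conditions in `Q`. -/
@[instance_reducible] def Sg (Q : Set P) : MeasurableSpace (GF P) :=
  MeasurableSpace.generateFrom {E | ∃ p ∈ Q, E = O p}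

/-- The event `E` can be decided. -/
def BP (E : Set (GF P)) : Prop := ∀ p, ∃ q ≤ p, Fo q E ∨ Fo q Eᶜ

/-- `f` is a name, over the part `Q` of the poset, for an element of `Y`. -/
def Nam {Y : Type} [MeasurableSpace Y] (Q : Set P) (f : GF P → Y) : Prop :=
  @Measurable (GF P) Y (Sg Q) _ f

/-- `T` is a name, over the part `Q` of the poset, for a set of elements of `Y`. -/
def TNam {Y : Type} (Q : Set P) (T : GF P → Set Y) : Prop :=
  ∀ s, @MeasurableSet (GF P) (Sg Q) {G | s ∈ T G}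

/-- `w` is a name, over the part `Q` of the poset, for a measure on the Cantor space. -/
def WNam {Y : Type} (Q : Set P) (w : GF P → Y → ℝ) : Prop :=
  ∀ s, @Measurable (GF P) ℝ (Sg Q) _ fun G => w G s

/-- The Hechler event: `x` extends the stem `t`, and is at least `g` beyond it. -/
def Hev (x g : GF P → ℕ → ℕ) (t : List ℕ) : Set (GF P) :=
  {G | (∀ n < t.length, x G n = t.getD n 0) ∧ ∀ n, t.length ≤ n → g G n ≤ x G n}

/-- A finite support iteration of Hechler forcing, abstractly. `sub i` is the part of the poset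
below the stage `i`, `res i` the restriction to it, `nxt i` the successor of the stage `i`, and
`x i` the `i`-th generic real. -/
structure HI (P : Type) [Preorder P] (I : Type) [LinearOrder I] where
  sub : I → Set P
  res : I → P → P
  nxt : I → I
  x : I → GF P → ℕ → ℕ
  sub_mono : ∀ i j, i ≤ j → sub i ⊆ sub j
  bounded : ∀ p, ∃ i, p ∈ sub i
  res_mem : ∀ i p, res i p ∈ sub i
  le_res : ∀ i p, p ≤ res i p
  res_mono : ∀ i p q, p ≤ q → res i p ≤ res i q
  res_self : ∀ i p, p ∈ sub i → res i p = p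
  amalg : ∀ i p q, q ∈ sub i → q ≤ res i p → Cmp q p
  ccc : ∀ A : Set P, (∀ p ∈ A, ∀ q ∈ A, p ≠ q → ¬ Cmp p q) → A.Countable
  lt_nxt : ∀ i, i < nxt i
  nxt_le : ∀ i j, i < j → nxt i ≤ j
  cont : ∀ i, (∀ j, i ≠ nxt j) → (∃ j, j < i) → ∀ p ∈ sub i, ∃ j < i, p ∈ sub j
  card_sub : ∀ i, Cardinal.mk (sub i) ≤ Cardinal.continuum
  card_Iio : ∀ i : I, Cardinal.mk (Iio i) ≤ Cardinal.continuum
  bdd : ∀ s : Set I, Cardinal.mk s ≤ Cardinal.continuum → ∃ b, ∀ a ∈ s, a < b
  x_nam : ∀ i, Nam (sub (nxt i)) (x i)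
  hech : ∀ i, ∀ p ∈ sub (nxt i), ∃ (t : List ℕ) (g : GF P → ℕ → ℕ), Nam (sub i) g ∧
    (∀ᶠ G in aeG P, (G ∈ O p ↔ G ∈ O (res i p) ∧ G ∈ Hev (x i) g t)) ∧
    ∀ q ∈ sub i, q ≤ res i p → ∀ f, Nam (sub i) f →
      ∃ r, r ≤ p ∧ r ≤ q ∧ Fo r (Hev (x i) f t)
  coh : ∀ i, ∀ p ∈ sub (nxt i), ∀ N : ℕ, ∃ n ≥ N, ∃ p1 ≤ p, p1 ∈ sub (nxt i) ∧
    ∀ q ∈ sub i, q ≤ res i p1 → ∃ b : ℕ, ∃ q' ∈ sub i, q' ≤ q ∧ ∀ v ≥ b,
      ∃ r, r ≤ p1 ∧ r ≤ q' ∧ Fo r {G | x i G n = v}

end Pool.Agent.Helper32.HM
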