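import Pool.Agent.Helper32.HM.TreeDefs2
import Pool.Agent.Helper32.HM.GenDefs

/-!
# Project HM: hulls, and the property `Dag`
-/

set_option autoImplicit false

namespace Pool.Agent.Helper32.HM

open Set Filter Classical

variable {P : Type} [Preorder P] {I : Type} [LinearOrder I]

/-- `F` is a smallest event of the stage `i` containing `E`, up to null events. -/
def IsHull (H : HI P I) (i : I) (E F : Set (GF P)) : Prop :=
  @MeasurableSet (GF P) (Sg (H.sub i)) F ∧ (∀ᶠ G in aeG P, G ∈ E → G ∈ F) ∧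
    ∀ F', @MeasurableSet (GF P) (Sg (H.sub i)) F' → (∀ᶠ G in aeG P, G ∈ E → G ∈ F') →
      ∀ᶠ G in aeG P, G ∈ F → G ∈ F'

/-- The hull of an event at the stage `i`. -/
noncomputable def HI.hull (H : HI P I) (i : I) (E : Set (GF P)) : Set (GF P) :=
  if h : ∃ F, IsHull H i E F then h.choose else univ

/-- The smallest closed set of the stage `j` which the Hechler condition `(t, g)` forces to
contain the closed set `T`. -/
noncomputable def HI.TT (H : HI P I) (j : I) (T : GF P → Set Node) (t : List ℕ)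
    (g : GF P → ℕ → ℕ) : GF P → Set Node :=
  fun G => {s | G ∈ H.hull j (Hev (H.x j) g t ∩ {G | s ∈ T G})}

/-- The hull of a tree name at the stage `i`. -/
noncomputable def HI.TH (H : HI P I) (i : I) (T : GF P → Set Node) : GF P → Set Node :=
  fun G => {s | G ∈ H.hull i {G | s ∈ T G}}

/-- `Z` is a name, of the stage `i`, for a closed null set. -/
def NullNam (H : HI P I) (w : GF P → Node → ℝ) (i : I) (Z : GF P → Set Node) : Prop :=
  TNam (H.sub i) Z ∧ ∀ G, Pr (Z G) ∧ NullT (w G) (Z G)

/-- `w` is a name, of the stage `i`, for a non-atomic measure. -/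
def MeasNam (H : HI P I) (w : GF P → Node → ℝ) (i : I) : Prop :=
  WNam (H.sub i) w ∧ ∀ G, IsMeas (w G)

/-- The main property of the pair of models `V_i ⊆ V_j`: for every closed set `T` of `V_j` there is
a countable family `K` of closed sets of `V_i` such that: if `T` is contained in the closed set
`F` of `V_i` then either `T` is contained in a closed null set of `V_i`, or `F` contains a non-null
member of `K`. -/
def Dag (H : HI P I) (w : GF P → Node → ℝ) (i j : I) : Prop :=
  ∀ T : GF P → Set Node, TNam (H.sub j) T → (∀ G, Pr (T G)) →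
    ∃ K : ℕ → GF P → Set Node, (∀ n, TNam (H.sub i) (K n)) ∧ (∀ n G, Pr (K n G)) ∧
      ∀ F : GF P → Set Node, TNam (H.sub i) F → (∀ G, Pr (F G)) →
        ∀ p, Fo p {G | T G ⊆ F G} →
          ∃ q ≤ p, (∃ Z, NullNam H w i Z ∧ Fo q {G | T G ⊆ Z G}) ∨
            ∃ n, Fo q {G | K n G ⊆ F G ∧ ¬ NullT (w G) (K n G)}

/-- A decreasing system of closed sets of the stage `j`, indexed by the functions of the stage
`j`. -/
structure DSys (H : HI P I) (j : I) (C : (GF P → ℕ → ℕ) → GF P → Set Node) : Prop where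
  nam : ∀ f : GF P → ℕ → ℕ, Nam (H.sub j) f → TNam (H.sub j) (C f)
  pr : ∀ f : GF P → ℕ → ℕ, Nam (H.sub j) f → ∀ᶠ G in aeG P, Pr (C f G)
  anti : ∀ f g : GF P → ℕ → ℕ, Nam (H.sub j) f → Nam (H.sub j) g →
    ∀ᶠ G in aeG P, (∀ k, f G k ≤ g G k) → C g G ⊆ C f G

end Pool.Agent.Helper32.HM
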