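import Pool.Agent.Helper32.HM.PosDefs
import Pool.Agent.Helper32.HM.Stub.PosHI
import Pool.Agent.Helper32.HM.Stub.Core
import Pool.Agent.Helper32.HM.Stub.Mod3
import Pool.Agent.Helper32.HM.Stub.Pol3
import Pool.Agent.Helper32.HM.Stub.Pol4
import Pool.Agent.Helper32.HM.Stub.Pol5c

/-! # HM: assembly -/

set_option autoImplicit false

namespace Pool.Agent.Helper32.HM

open Set Filter MeasureTheory Pool.Agent.Helper26.PN

universe u

theorem equality_of_pmn (h : PMN univ univ) (X : Type u) [TopologicalSpace X] [PolishSpace X]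
    [MeasurableSpace X] [BorelSpace X] (A : Set X) : PNσ A ↔ (PMσ A ∧ UN A) :=
  ⟨fun hA => ⟨pn_pm hA, pn_un hA⟩,
    fun hA => pm_pn_of_cantor (fun _ hB => cantor_of_pmn h hB) hA.1⟩

theorem exists_pmn_model :
    ∃ M : Set ZFSet.{0}, M.Countable ∧ IsTransModelZFC M ∧ PMN (realsOf M) (setsOf M) := by
  obtain ⟨I, _, _, ⟨i₀⟩, ⟨H⟩⟩ := exists_HI
  let _ : OrderTop (Pos I) :=
    { top := ⟨.nil, i₀, Raw.gd_nil i₀⟩
      le_top := fun p => Raw.le_nil p.raw }
  exact exists_model H.ccc fun A hA c hc hc' p₀ hPM => core H A hA hc hc' p₀ hPM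

end Pool.Agent.Helper32.HM
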