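import Pool.Agent.Helper32.HM.NmDefs
import Pool.Agent.Helper32.HM.Stub.Mod1a
import Pool.Agent.Helper32.HM.Stub.Mod1b
import Pool.Agent.Helper32.HM.Stub.Mod2
import Pool.Agent.Helper32.HM.Stub.Calc1
import Pool.Agent.Helper32.HM.Stub.Calc2
import Pool.Agent.Helper32.HM.Stub.TreeM
import Pool.Agent.Helper32.HM.Stub.TreeN

/-! # HM module Mod3: from the core theorem to a model -/

set_option autoImplicit false

namespace Pool.Agent.Helper32.HM

open Set Filter Pool.Agent.Helper87.Sym Classical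

section Mod3

variable {P : Type} [Preorder P] [OrderTop P]

/-- The requirements of the generic sequence. -/
inductive Mod3_R : Type
  | r1 | r2 | r3 | r4
  deriving Countable

/-- The events which must hold at the generic point. -/
inductive Mod3_E : Type
  | real | name | perf | nwd | br | null | meas | aa
  deriving Countable

/-- The event that the real `f` belongs to the set of reals `α`. -/
def Mod3_AA (α : Nm P) (f : GF P → ℕ → Bool) : Set (GF P) :=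
  {G | ∃ p ∈ G.carrier, fmem (nm f) α p}

/-- The truth event of an event. -/
def Mod3_T (X : Set (GF P)) : Set (GF P) := {G | G ∈ X ↔ ∃ p, G ∈ O p ∧ Fo p X}

/-- The requirements. -/
def Mod3_W (F : Nm P → GF P → ℕ → Bool) : Mod3_R → (ℕ → Nm P) → P → Nm P → Prop
  | .r1, v, q, x => Fo q {G | ∀ n, PerfT (tr (F x G) n)} ∧
      ∀ q' ≤ q, ∀ S : GF P → ℕ → Bool, Nam univ S →
        ¬ (Fo q' {G | ∀ m n, NwdT (tr (S G) m) (tr (F x G) n)} ∧
          ∀ f : GF P → ℕ → Bool, Nam univ f →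
            Fo q' {G | G ∈ Mod3_AA (v 0) f → ∃ m, f G ∈ br (tr (S G) m)})
  | .r2, v, q, x => Fo q (Mod3_AA (v 0) (F x)) ∧
      Fo q {G | ¬ ∃ m, F x G ∈ br (tr (F (v 1) G) m)}
  | .r3, v, q, x => Fo q {G | ∀ m, NullT (wt (F (v 1) G)) (tr (F x G) m)} ∧
      ∀ f : GF P → ℕ → Bool, Nam univ f →
        Fo q {G | G ∈ Mod3_AA (v 0) f → ∃ m, f G ∈ br (tr (F x G) m)}
  | .r4, v, _, x => x = nm (F (v 0))

/-- The events. -/
def Mod3_Ev (F : Nm P → GF P → ℕ → Bool) : Mod3_E → (ℕ → Nm P) → Set (GF P)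
  | .real, v => {G | F (v 0) G = rl (v 0) G}
  | .name, v => {G | rl (nm (F (v 0))) G = F (v 0) G}
  | .perf, v => Mod3_T {G | ∀ n, PerfT (tr (F (v 0) G) n)}
  | .nwd, v => Mod3_T {G | ∀ m n, NwdT (tr (F (v 0) G) m) (tr (F (v 1) G) n)}
  | .br, v => Mod3_T {G | ∃ m, F (v 0) G ∈ Pool.Agent.Helper32.HM.br (tr (F (v 1) G) m)}
  | .null, v => Mod3_T {G | ∀ m, NullT (wt (F (v 0) G)) (tr (F (v 1) G) m)}
  | .meas, v => Mod3_T {G | IsMeas (wt (F (v 0) G))}
  | .aa, v => Mod3_T (Mod3_AA (v 0) (F (v 1)))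

theorem Mod3_bp_AA (α : Nm P) (f : GF P → ℕ → Bool) : BP (Mod3_AA α f) := by
  have e : Mod3_AA α f = ⋃ p ∈ {p : P | fmem (nm f) α p}, O p := by
    ext G
    simp only [mem_iUnion, exists_prop]
    exact exists_congr fun p => and_comm
  rw [e]
  exact bp_open _

theorem Mod3_AA_sub {α : Nm P} {f f' : GF P → ℕ → Bool} (h : ∀ᶠ G in aeG P, f G = f' G) :
    Mod3_AA α f ⊆ Mod3_AA α f' := by
  rintro G ⟨p, hp, h'⟩
  exact ⟨p, hp, fmem_congr_left (feq_nm_nm (fo_of_ae h)) h'⟩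

theorem Mod3_AA_congr {α : Nm P} {f f' : GF P → ℕ → Bool} (h : ∀ᶠ G in aeG P, f G = f' G) :
    Mod3_AA α f = Mod3_AA α f' :=
  (Mod3_AA_sub h).antisymm (Mod3_AA_sub (h.mono fun _ h => h.symm))

omit [OrderTop P] in
theorem Mod3_bp_nam {f : GF P → ℕ → Bool} (hf : Nam univ f) (n : ℕ) :
    BP {G | f G n = true} := by
  have h1 : @Measurable (GF P) Bool (Sg univ) _ fun G => f G n := by
    let _ : MeasurableSpace (GF P) := Sg univ
    exact (measurable_pi_apply n).comp hf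
  exact bp_of_measurable (h1 (measurableSet_singleton true))

theorem Mod3_pt {R : Type} {W : R → (ℕ → Nm P) → P → Nm P → Prop} (g : Gen (SS P) W)
    {X : Set (GF P)} (h : pt g ∈ Mod3_T X) : pt g ∈ X ↔ ∃ k, Fo (g.pc k) X := by
  have h' : pt g ∈ X ↔ ∃ p, pt g ∈ O p ∧ Fo p X := h
  rw [h']
  constructor
  · rintro ⟨p, ⟨k, hk⟩, hp⟩
    exact ⟨k, hp.mono hk subset_rfl⟩
  · rintro ⟨k, hk⟩
    exact ⟨g.pc k, ⟨k, le_rfl⟩, hk⟩

theorem Mod3_val_nm {R : Type} {W : R → (ℕ → Nm P) → P → Nm P → Prop} (g : Gen (SS P) W)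
    {f : GF P → ℕ → Bool} (hN : nm f ∈ g.N) (h : rl (nm f) (pt g) = f (pt g)) :
    g.val (nm f) = realZ (f (pt g)) := by
  have key : ∀ n, ZFSet.mk (PSet.ofNat n) ∈ g.val (nm f) ↔ f (pt g) n = true := by
    intro n
    rw [← rl_pt g hN n, h]
  ext z
  rw [mem_realZ]
  constructor
  · intro hz
    obtain ⟨i, -, -, h3⟩ := g.mem_val.1 hz
    have h4 : g.val (chk (PSet.ofNat i.1.1)) = z := h3
    rw [g.val_num] at h4
    have h5 : z = ZFSet.mk (PSet.ofNat i.1.1) := h4.symm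
    refine ⟨i.1.1, ?_, h5⟩
    rw [← key, ← h5]
    exact hz
  · rintro ⟨n, hn, rfl⟩
    exact (key n).2 hn

theorem Mod3_isMeas_zero : IsMeas (wt fun _ => false) := by
  have h : ∀ s, wt (fun _ => false) s = 0 := by
    intro s
    simp [wt]
  refine ⟨fun s => (h s).ge, fun s => ?_, fun ε hε => ⟨0, fun s _ => ?_⟩⟩
  · rw [h, h, h]; norm_num
  · rw [h]; exact hε

end Mod3

/-- If the core theorem holds for the poset `P` then there is a countable transitive model of ZFC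
in which `PM_σ ⊆ PN_σ` holds for subsets of the Cantor space. -/
theorem exists_model {P : Type} [Preorder P] [OrderTop P]
    (hP : ∀ A : Set P, (∀ p ∈ A, ∀ q ∈ A, p ≠ q → ¬ Cmp p q) → A.Countable)
    (core : ∀ A : (GF P → ℕ → Bool) → Set (GF P), (∀ f, Nam univ f → BP (A f)) →
      ∀ c : GF P → ℕ → Bool, Nam univ c → (∀ G, IsMeas (wt (c G))) → ∀ p₀ : P,
      (∀ q ≤ p₀, ∀ T : GF P → ℕ → Bool, Nam univ T → (∀ G n, PerfT (tr (T G) n)) →
        ∃ q' ≤ q, ∃ S : GF P → ℕ → Bool, Nam univ S ∧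
          Fo q' {G | ∀ m n, NwdT (tr (S G) m) (tr (T G) n)} ∧
          ∀ f, Nam univ f → Fo q' {G | G ∈ A f → ∃ m, f G ∈ br (tr (S G) m)}) →
      ∃ S : GF P → ℕ → Bool, Nam univ S ∧ (∀ G m, NullT (wt (c G)) (tr (S G) m)) ∧
        ∀ f, Nam univ f → Fo p₀ {G | G ∈ A f → ∃ m, f G ∈ br (tr (S G) m)}) :
    ∃ M : Set ZFSet.{0}, M.Countable ∧ IsTransModelZFC M ∧ PMN (realsOf M) (setsOf M) := by
  choose F hF1 hF2 using fun τ : Nm P => exists_nam_rl hP τ
  -- the real of the name of a name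
  have hFnm : ∀ f : GF P → ℕ → Bool, Nam univ f → ∀ᶠ G in aeG P, F (nm f) G = f G := by
    intro f hf
    filter_upwards [hF2 (nm f), rl_nm (Mod3_bp_nam hf)] with G h1 h2
    rw [h1, h2]
  have hE : ∀ r v, ∀ᶠ G in aeG P, G ∈ Mod3_Ev F r v := by
    intro r v
    cases r with
    | real => exact hF2 (v 0)
    | name => exact rl_nm (Mod3_bp_nam (hF1 (v 0)))
    | perf => exact (bp_of_measurable (measurableSet_perfT (hF1 (v 0)))).truth
    | nwd => exact (bp_of_measurable (measurableSet_nwdT (hF1 (v 0)) (hF1 (v 1)))).truth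
    | br => exact (bp_of_measurable (measurableSet_br (hF1 (v 0)) (hF1 (v 1)))).truth
    | null => exact (bp_of_measurable (measurableSet_nullSeq (hF1 (v 0)) (hF1 (v 1)))).truth
    | meas => exact (bp_of_measurable (measurableSet_isMeas (hF1 (v 0)))).truth
    | aa => exact (Mod3_bp_AA (v 0) (F (v 1))).truth
  obtain ⟨R₁, W₁, g, hch, hreq, hpt⟩ := exists_point (Mod3_W F) (Mod3_Ev F) hE
  refine ⟨g.M, g.countable_M, zfc_of_ch g hch, ?_⟩
  -- the requirements and the events at the names of the fragment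
  have real_at : ∀ τ ∈ g.N, F τ (pt g) = rl τ (pt g) := fun τ hτ =>
    hpt .real [τ] (by simpa using hτ)
  have name_at : ∀ τ ∈ g.N, rl (nm (F τ)) (pt g) = F τ (pt g) := fun τ hτ =>
    hpt .name [τ] (by simpa using hτ)
  have nmN : ∀ τ ∈ g.N, nm (F τ) ∈ g.N := by
    intro τ hτ
    obtain ⟨k, hk⟩ := hreq .r4 [τ] (by simpa using hτ)
    rcases hk with ⟨x, hx, hx'⟩ | hk
    · have e : x = nm (F τ) := hx'
      rw [← e]
      exact hx
    · exact absurd rfl (hk _ le_rfl (nm (F τ)))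
  have perf_at : ∀ τ ∈ g.N, (pt g ∈ {G | ∀ n, PerfT (tr (F τ G) n)} ↔
      ∃ k, Fo (g.pc k) {G | ∀ n, PerfT (tr (F τ G) n)}) := fun τ hτ =>
    Mod3_pt g (hpt .perf [τ] (by simpa using hτ))
  have nwd_at : ∀ σ ∈ g.N, ∀ τ ∈ g.N,
      (pt g ∈ {G | ∀ m n, NwdT (tr (F σ G) m) (tr (F τ G) n)} ↔
      ∃ k, Fo (g.pc k) {G | ∀ m n, NwdT (tr (F σ G) m) (tr (F τ G) n)}) := fun σ hσ τ hτ =>
    Mod3_pt g (hpt .nwd [σ, τ] (by simpa using ⟨hσ, hτ⟩))
  have br_at : ∀ σ ∈ g.N, ∀ τ ∈ g.N,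
      (pt g ∈ {G | ∃ m, F σ G ∈ br (tr (F τ G) m)} ↔
      ∃ k, Fo (g.pc k) {G | ∃ m, F σ G ∈ br (tr (F τ G) m)}) := fun σ hσ τ hτ =>
    Mod3_pt g (hpt .br [σ, τ] (by simpa using ⟨hσ, hτ⟩))
  have null_at : ∀ σ ∈ g.N, ∀ τ ∈ g.N,
      (pt g ∈ {G | ∀ m, NullT (wt (F σ G)) (tr (F τ G) m)} ↔
      ∃ k, Fo (g.pc k) {G | ∀ m, NullT (wt (F σ G)) (tr (F τ G) m)}) := fun σ hσ τ hτ =>
    Mod3_pt g (hpt .null [σ, τ] (by simpa using ⟨hσ, hτ⟩))
  have meas_at : ∀ τ ∈ g.N, (pt g ∈ {G | IsMeas (wt (F τ G))} ↔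
      ∃ k, Fo (g.pc k) {G | IsMeas (wt (F τ G))}) := fun τ hτ =>
    Mod3_pt g (hpt .meas [τ] (by simpa using hτ))
  have aa_at : ∀ σ ∈ g.N, ∀ τ ∈ g.N, (pt g ∈ Mod3_AA σ (F τ) ↔
      ∃ k, Fo (g.pc k) (Mod3_AA σ (F τ))) := fun σ hσ τ hτ =>
    Mod3_pt g (hpt .aa [σ, τ] (by simpa using ⟨hσ, hτ⟩))
  have mem_real : ∀ τ ∈ g.N, F τ (pt g) ∈ realsOf g.M := by
    intro τ hτ
    rw [real_at τ hτ]
    exact realZ_rl_mem g hτ
  intro A hA hPM c hc hcm
  obtain ⟨α, hα, hαA⟩ := hA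
  -- the members of `A`
  have memA : ∀ z : ℕ → Bool, realZ z ∈ g.val α → z ∈ A := by
    intro z hz
    rw [hαA, ZFSet.mem_range] at hz
    obtain ⟨x, hx⟩ := hz
    have h1 : x.1 = z := realZ_inj hx
    rw [← h1]
    exact x.2
  have memA' : ∀ z ∈ A, realZ z ∈ g.val α := by
    intro z hz
    rw [hαA, ZFSet.mem_range]
    exact ⟨⟨z, hz⟩, rfl⟩
  -- the claim
  have claim : ∃ k₀, ∀ q ≤ g.pc k₀, ∀ x, ¬ Mod3_W F .r1 (asg [α]) q x := by
    obtain ⟨k, hk⟩ := hreq .r1 [α] (by simpa using hα)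
    rcases hk with ⟨x, hx, hx1, hx2⟩ | hk
    swap
    · exact ⟨k, hk⟩
    exfalso
    have hT := (perf_at x hx).2 ⟨k, hx1⟩
    obtain ⟨S, hS, hS1, hS2⟩ := hPM _ (mem_real x hx) hT
    obtain ⟨σ, hσ, -, hσS, -⟩ := exists_name_of_realZ g hS
    have hFσ : F σ (pt g) = S := by rw [real_at σ hσ, hσS]
    obtain ⟨k1, hk1⟩ := (nwd_at σ hσ x hx).1 (by
      intro m n
      rw [hFσ]
      exact hS1 m n)
    obtain ⟨k2, hk2⟩ := hreq .r2 [α, σ] (by simpa using ⟨hα, hσ⟩)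
    rcases hk2 with ⟨y, hy, hy1, hy2⟩ | hk2
    · -- a member of `A` outside of the union
      have hy1' : Fo (g.pc k2) (Mod3_AA α (F y)) := hy1
      have hy2' : Fo (g.pc k2) {G | ¬ ∃ m, F y G ∈ br (tr (F σ G) m)} := hy2
      obtain ⟨p, ⟨l, hl⟩, hp⟩ := (aa_at α hα y hy).2 ⟨k2, hy1'⟩
      have h1 : g.val (nm (F y)) ∈ g.val α :=
        (g.mem_iff (nmN y hy) hα).1 ⟨l, fmem_mono hp hl⟩
      rw [Mod3_val_nm g (nmN y hy) (name_at y hy)] at h1
      obtain ⟨m, hm⟩ := hS2 _ (memA _ h1)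
      obtain ⟨k3, hk3⟩ := (br_at y hy σ hσ).1 ⟨m, by rw [hFσ]; exact hm⟩
      have h2 := hk3.mono (g.pc_le (le_max_left k3 k2)) subset_rfl
      have h3 := hy2'.mono (g.pc_le (le_max_right k3 k2)) subset_rfl
      exact h2.not_compl h3
    · -- the code of the union works below a condition
      have hk2' : ∀ q ≤ g.pc k2, ∀ y, ¬ (Fo q (Mod3_AA α (F y)) ∧
          Fo q {G | ¬ ∃ m, F y G ∈ br (tr (F σ G) m)}) := hk2
      refine hx2 (g.pc (max k (max k1 k2))) (g.pc_le (le_max_left _ _)) (F σ) (hF1 σ) ⟨?_, ?_⟩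
      · exact hk1.mono (g.pc_le ((le_max_left _ _).trans (le_max_right _ _))) subset_rfl
      · intro f hf
        by_contra hne
        have hbp : BP {G | G ∈ Mod3_AA (asg [α] 0) f → ∃ m, f G ∈ br (tr (F σ G) m)} := by
          have h1 := (Mod3_bp_AA (asg [α] 0) f).compl.union
            (bp_of_measurable (measurableSet_br hf (hF1 σ)))
          convert h1 using 1
          ext G
          rw [mem_union, mem_compl_iff]
          exact imp_iff_not_or
        obtain ⟨q, hq, hq'⟩ := hbp.exists_of_not_fo hne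
        refine hk2' q (hq.trans (g.pc_le ((le_max_right _ _).trans (le_max_right _ _)))) (nm f)
          ⟨?_, ?_⟩
        · rw [Mod3_AA_congr (hFnm f hf)]
          refine hq'.mono le_rfl ?_
          intro G hG
          by_contra hcon
          exact hG fun h => absurd h hcon
        · refine hq'.mono_ae le_rfl ?_
          filter_upwards [hFnm f hf] with G hG hG'
          intro hcon
          rw [hG] at hcon
          exact hG' fun _ => hcon
  obtain ⟨k₀, hk₀⟩ := claim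
  -- the measure
  obtain ⟨γ, hγ, -, hγc, -⟩ := exists_name_of_realZ g hc
  have hFγ : F γ (pt g) = c := by rw [real_at γ hγ, hγc]
  obtain ⟨k₁, hk₁⟩ := (meas_at γ hγ).1 (by
    change IsMeas (wt (F γ (pt g)))
    rw [hFγ]
    exact hcm)
  let c' : GF P → ℕ → Bool := fun G => if IsMeas (wt (F γ G)) then F γ G else fun _ => false
  have hc'1 : Nam univ c' := by
    let _ : MeasurableSpace (GF P) := Sg univ
    exact Measurable.ite (measurableSet_isMeas (hF1 γ)) (hF1 γ) measurable_const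
  have hc'2 : ∀ G, IsMeas (wt (c' G)) := by
    intro G
    by_cases h : IsMeas (wt (F γ G))
    · simp only [c', h, if_true]
    · simp only [c', h, if_false]
      exact Mod3_isMeas_zero
  obtain ⟨S, hS1, hS2, hS3⟩ := core (Mod3_AA α) (fun f _ => Mod3_bp_AA α f) c' hc'1 hc'2
    (g.pc (max k₀ k₁)) (by
      intro q hq T hT hTp
      have h1 := hk₀ q (hq.trans (g.pc_le (le_max_left _ _))) (nm T)
      have h2 : ¬ (Fo q {G | ∀ n, PerfT (tr (F (nm T) G) n)} ∧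
        ∀ q' ≤ q, ∀ S : GF P → ℕ → Bool, Nam univ S →
        ¬ (Fo q' {G | ∀ m n, NwdT (tr (S G) m) (tr (F (nm T) G) n)} ∧
          ∀ f : GF P → ℕ → Bool, Nam univ f →
            Fo q' {G | G ∈ Mod3_AA α f → ∃ m, f G ∈ br (tr (S G) m)})) := h1
      have h3 : Fo q {G | ∀ n, PerfT (tr (F (nm T) G) n)} := by
        apply fo_of_ae
        filter_upwards [hFnm T hT] with G hG
        intro n
        rw [hG]
        exact hTp G n
      have h4 : ∃ q' ≤ q, ∃ S : GF P → ℕ → Bool, Nam univ S ∧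
          (Fo q' {G | ∀ m n, NwdT (tr (S G) m) (tr (F (nm T) G) n)} ∧
          ∀ f : GF P → ℕ → Bool, Nam univ f →
            Fo q' {G | G ∈ Mod3_AA α f → ∃ m, f G ∈ br (tr (S G) m)}) := by
        by_contra hcon
        push Not at hcon
        exact h2 ⟨h3, fun q' hq' S hS h => by
          obtain ⟨f, hf, hf'⟩ := hcon q' hq' S hS h.1
          exact hf' (h.2 f hf)⟩
      obtain ⟨q', hq', S, hS, h5, h6⟩ := h4
      refine ⟨q', hq', S, hS, ?_, h6⟩
      refine h5.mono_ae le_rfl ?_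
      filter_upwards [hFnm T hT] with G hG hG'
      intro m n
      have := hG' m n
      rw [hG] at this
      exact this)
  -- the requirement `r3`
  obtain ⟨k, hk⟩ := hreq .r3 [α, γ] (by simpa using ⟨hα, hγ⟩)
  have hk' : ∃ x ∈ g.N, Fo (g.pc k) {G | ∀ m, NullT (wt (F γ G)) (tr (F x G) m)} ∧
      ∀ f : GF P → ℕ → Bool, Nam univ f →
        Fo (g.pc k) {G | G ∈ Mod3_AA α f → ∃ m, f G ∈ br (tr (F x G) m)} := by
    rcases hk with hk | hk
    · exact hk
    · exfalso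
      refine hk (g.pc (max k (max k₀ k₁))) (g.pc_le (le_max_left _ _)) (nm S) ⟨?_, ?_⟩
      · change Fo _ {G | ∀ m, NullT (wt (F γ G)) (tr (F (nm S) G) m)}
        have h1 := hk₁.mono (g.pc_le ((le_max_right k₀ k₁).trans (le_max_right k _))) subset_rfl
        refine h1.mono_ae le_rfl ?_
        filter_upwards [hFnm S hS1] with G hG hG'
        intro m
        have h2 := hS2 G m
        have h3 : c' G = F γ G := if_pos hG'
        rw [h3] at h2
        rw [hG]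
        exact h2
      · intro f hf
        change Fo _ {G | G ∈ Mod3_AA α f → ∃ m, f G ∈ br (tr (F (nm S) G) m)}
        refine (hS3 f hf).mono_ae (g.pc_le (le_max_right _ _)) ?_
        filter_upwards [hFnm S hS1] with G hG hG'
        rw [hG]
        exact hG'
  obtain ⟨x, hx, hx1, hx2⟩ := hk'
  refine ⟨F x (pt g), mem_real x hx, ?_, ?_⟩
  · have h1 := (null_at γ hγ x hx).2 ⟨k, hx1⟩
    rw [← hFγ]
    exact h1
  · intro z hz
    have hz1 := memA' z hz
    have hz2 : realZ z ∈ g.M := g.trans ⟨α, hα, rfl⟩ hz1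
    obtain ⟨τ, hτ, hτ1, hτ2, l, hl⟩ := exists_name_of_realZ g hz2
    obtain ⟨k'', hk''⟩ := (g.mem_iff hτ hα).2 (by rw [hτ1]; exact hz1)
    have h1 : feq τ (nm (F τ)) (g.pc l) := feq_nm hl (hF2 τ)
    have h2 : fmem (nm (F τ)) α (g.pc (max l k'')) :=
      fmem_congr_left (feq_mono h1 (g.pc_le (le_max_left _ _)))
        (fmem_mono hk'' (g.pc_le (le_max_right _ _)))
    have h3 : Fo (g.pc (max (max l k'') k)) {G | ∃ m, F τ G ∈ br (tr (F x G) m)} := by
      have h4 := (hx2 (F τ) (hF1 τ)).mono (g.pc_le (le_max_right (max l k'') k)) subset_rfl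
      have h5 : Fo (g.pc (max (max l k'') k)) (O (g.pc (max l k''))) :=
        fo_O (g.pc_le (le_max_left _ _))
      refine (h4.and h5).mono le_rfl ?_
      rintro G ⟨hG1, hG2⟩
      exact hG1 ⟨_, hG2, h2⟩
    have h4 := (br_at τ hτ x hx).2 ⟨_, h3⟩
    obtain ⟨m, hm⟩ := h4
    refine ⟨m, ?_⟩
    rw [real_at τ hτ, hτ2] at hm
    exact hm

end Pool.Agent.Helper32.HM
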