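import Mathlib

/-!
# Project HM (MP_2087e7, Q2): trees, coded measures, and the coded statement `PMN`

Nodes are finite binary sequences with the NEWEST entry first, so `s <:+ t` means that the node `t`
extends the node `s`; the restriction of `x : ℕ → Bool` to its first `n` values is `PiNat.res x n`.
-/

set_option autoImplicit false

namespace Pool.Agent.Helper32.HM

open Set Classical

/-- Finite binary sequences, newest entry first. -/
abbrev Node := List Bool

/-- The closed set `[T]` of the branches of a set `T` of nodes. -/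
def br (T : Set Node) : Set (ℕ → Bool) := {x | ∀ n, PiNat.res x n ∈ T}

/-- The `n`-th set of nodes coded by the real `c`. -/
def tr (c : ℕ → Bool) (n : ℕ) : Set Node := {s | c (Nat.pair n (Encodable.encode s)) = true}

/-- The number in `[0,1]` with the binary digits `c (k, s)`, `k ∈ ℕ`. -/
noncomputable def wt (c : ℕ → Bool) (s : Node) : ℝ :=
  ∑' k : ℕ, if c (Nat.pair k (Encodable.encode s)) = true then (1 / 2 : ℝ) ^ (k + 1) else 0

/-- `w` gives the values `w s = μ([s])` of a finite non-atomic Borel measure `μ` on the Cantor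
space on the basic clopen sets `[s]`. -/
structure IsMeas (w : Node → ℝ) : Prop where
  nonneg : ∀ s, 0 ≤ w s
  add : ∀ s, w s = w (false :: s) + w (true :: s)
  small : ∀ ε : ℝ, 0 < ε → ∃ l, ∀ s : Node, s.length = l → w s < ε

/-- All nodes of length `l`. -/
def nodes : ℕ → Finset Node
  | 0 => {[]}
  | l + 1 => (nodes l).image (List.cons false) ∪ (nodes l).image (List.cons true)

/-- The `w`-mass of the clopen set given by the nodes of length `l` in `S`. -/
noncomputable def mass (w : Node → ℝ) (S : Set Node) (l : ℕ) : ℝ :=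
  ∑ s ∈ (nodes l).filter (fun s => s ∈ S), w s

/-- The closed set coded by `S` is null for the measure given by `w`. -/
def NullT (w : Node → ℝ) (S : Set Node) : Prop := ∀ ε : ℝ, 0 < ε → ∃ l, mass w S l < ε

/-- `T` is a nonempty perfect tree. -/
structure PerfT (T : Set Node) : Prop where
  nil : [] ∈ T
  down : ∀ (b : Bool) (s : Node), b :: s ∈ T → s ∈ T
  split : ∀ s ∈ T, ∃ t ∈ T, ∃ u ∈ T, s <:+ t ∧ s <:+ u ∧ ¬ t <:+ u ∧ ¬ u <:+ t

/-- `[S] ∩ [T]` is nowhere dense in `[T]`. -/
def NwdT (S T : Set Node) : Prop := ∀ s ∈ T, ∃ t ∈ T, s <:+ t ∧ t ∉ S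

/-- Pruned trees: trees without end nodes (also the empty tree). -/
def Pr (T : Set Node) : Prop := ∀ s, s ∈ T ↔ (false :: s ∈ T ∨ true :: s ∈ T)

/-- The statement `PM_σ(2^ω) ⊆ PN_σ(2^ω)` for the third order structure `(ω, R, 𝒬)`: every set
`A ∈ 𝒬` which is countably perfectly meager is countably perfectly null; closed sets, `F_σ` sets,
sequences of perfect sets and measures are coded by reals in `R`. -/
def PMN (R : Set (ℕ → Bool)) (𝒬 : Set (Set (ℕ → Bool))) : Prop :=
  ∀ A ∈ 𝒬,
    (∀ T ∈ R, (∀ n, PerfT (tr T n)) →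
      ∃ S ∈ R, (∀ m n, NwdT (tr S m) (tr T n)) ∧ ∀ x ∈ A, ∃ m, x ∈ br (tr S m)) →
    ∀ c ∈ R, IsMeas (wt c) →
      ∃ S ∈ R, (∀ m, NullT (wt c) (tr S m)) ∧ ∀ x ∈ A, ∃ m, x ∈ br (tr S m)

end Pool.Agent.Helper32.HM
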