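import Pool.Agent.Helper87.ModelDefs
import Pool.Agent.Helper32.HM.TreeDefs

/-!
# Project HM: countable transitive models of ZFC, their reals and sets of reals
-/

set_option autoImplicit false

namespace Pool.Agent.Helper32.HM

open Set Pool.Agent.Helper87.Sym

/-- `M` is a transitive set and a model of ZFC. -/
structure IsTransModelZFC (M : Set ZFSet.{0}) : Prop where
  /-- transitivity and the axioms of ZF -/
  zf : IsTransModelZF M
  /-- the Axiom of Choice: every family of nonempty pairwise disjoint sets has a selector -/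
  choice : ∀ x ∈ M, (∀ y ∈ x, y ≠ ∅) → (∀ y ∈ x, ∀ z ∈ x, y ≠ z → y ∩ z = ∅) →
    ∃ c ∈ M, ∀ y ∈ x, ∃! u, u ∈ y ∧ u ∈ c

/-- The subset of `ω` with the characteristic function `x`, as a set. -/
noncomputable def realZ (x : ℕ → Bool) : ZFSet.{0} :=
  ZFSet.range fun n : {n : ℕ // x n = true} => ZFSet.mk (PSet.ofNat n.1)

/-- The reals in `M`. -/
def realsOf (M : Set ZFSet.{0}) : Set (ℕ → Bool) := {x | realZ x ∈ M}

/-- The sets of reals in `M`. -/
def setsOf (M : Set ZFSet.{0}) : Set (Set (ℕ → Bool)) :=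
  {A | ZFSet.range (fun x : A => realZ x.1) ∈ M}

end Pool.Agent.Helper32.HM
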