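import Pool.Agent.Helper87.SymModel
import Pool.Agent.Helper32.HM.ModDefs
import Pool.Agent.Helper32.HM.GenDefs

/-!
# Project HM: generic countable transitive models (no symmetry), names of reals
-/

set_option autoImplicit false

namespace Pool.Agent.Helper32.HM

open Set Filter Pool.Agent.Helper87.Sym Classical

/-- The trivial group. -/
inductive Triv : Type
  | one

instance : Group Triv where
  mul _ _ := .one
  one := .one
  inv _ := .one
  mul_assoc _ _ _ := rfl
  one_mul a := by cases a; rfl
  mul_one a := by cases a; rfl
  inv_mul_cancel _ := rfl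

instance (P : Type) : MulAction Triv P where
  smul _ p := p
  one_smul _ := rfl
  mul_smul _ _ _ := rfl

instance (P : Type) [Preorder P] : ActMono P Triv where
  smul_le _ _ _ h := h

/-- The trivial symmetric system: all names are hereditarily symmetric. -/
def SS (P : Type) [Preorder P] : SymSys P Triv where
  S := Unit
  fix _ := univ
  nonempty := ⟨()⟩
  dir _ _ := ⟨(), fun _ _ => ⟨mem_univ _, mem_univ _⟩⟩
  conj _ _ := ⟨(), fun _ _ => mem_univ _⟩

variable {P : Type} [Preorder P] [OrderTop P]

/-- The name of a selector for the family `τ`: with respect to a well-order of the members of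
the union of `τ`, it contains the members `z` of the union with no smaller member in the same
member of `τ`. -/
noncomputable def chN (τ : Nm P) : Nm P :=
  .mk {x : (unionN τ).Idx × P // x.2 ≤ (unionN τ).cond x.1 ∧
      ∀ y : Nm P, ∀ q, q ≤ x.2 → fmem y τ q → fmem ((unionN τ).child x.1) y q →
        ∀ j, WellOrderingRel j x.1 → ∀ r, r ≤ q → r ≤ (unionN τ).cond j →
          ¬ fmem ((unionN τ).child j) y r}
    (fun x => (unionN τ).child x.1.1) (fun x => x.1.2)

/-- The check name of a natural number. -/
def nN (n : ℕ) : Nm P := chk (PSet.ofNat n)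

/-- The name of the real given by the name `f`. -/
def nm (f : GF P → ℕ → Bool) : Nm P :=
  .mk {x : ℕ × P // Fo x.2 {G | f G x.1 = true}} (fun x => nN x.1.1) (fun x => x.1.2)

/-- The characteristic function of the set of the natural numbers in a name. -/
noncomputable def rl (τ : Nm P) (G : GF P) (n : ℕ) : Bool :=
  decide (∃ p ∈ G.carrier, fmem (nN n) τ p)

/-- The generic filter of a generic sequence, as a point. -/
def pt {R : Type} {W : R → (ℕ → Nm P) → P → Nm P → Prop} (g : Gen (SS P) W) : GF P where
  carrier := g.F
  nonempty := ⟨g.pc 0, 0, le_rfl⟩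
  up := by
    rintro p ⟨k, hk⟩ q hq
    exact ⟨k, hk.trans hq⟩
  dir := by
    rintro p ⟨k, hk⟩ q ⟨l, hl⟩
    exact ⟨g.pc (max k l), ⟨max k l, le_rfl⟩, (g.anti (le_max_left _ _)).trans hk,
      (g.anti (le_max_right _ _)).trans hl⟩

end Pool.Agent.Helper32.HM
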