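import Pool.Agent.Helper32.HM.TreeDefs

/-!
# Project HM: auxiliary operations on trees
-/

set_option autoImplicit false

namespace Pool.Agent.Helper32.HM

open Set Classical

/-- The pruned part of `T`. -/
def prune (T : Set Node) : Set Node :=
  {s | ∀ l, s.length ≤ l → ∃ t : Node, t.length = l ∧ s <:+ t ∧ ∀ u, u <:+ t → u ∈ T}

/-- The branch `x` as a tree. -/
def bt (x : ℕ → Bool) : Set Node := {s | PiNat.res x s.length = s}

/-- The support of the restriction of the measure to the closed set. -/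
def supp (w : Node → ℝ) (K : Set Node) : Set Node :=
  {s | s ∈ K ∧ ¬ NullT w {t | t ∈ K ∧ (t <:+ s ∨ s <:+ t)}}

/-- The clopen set given by the nodes of length `l` in `U`. -/
def cut (U : Set Node) (l : ℕ) : Set Node := {s | ∃ t ∈ U, t.length = l ∧ (t <:+ s ∨ s <:+ t)}

/-- The code of a sequence of sets of nodes. -/
noncomputable def enc (T : ℕ → Set Node) : ℕ → Bool :=
  fun k => decide (∃ s : Node, Encodable.encode s = (Nat.unpair k).2 ∧ s ∈ T (Nat.unpair k).1)

/-- The node `s` meets the clopen set given by the finite set `D` of nodes. -/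
def mt (D : Finset Node) (s : Node) : Prop := ∃ t ∈ D, t <:+ s ∨ s <:+ t

/-- The closed sets `⋂ k ≥ m, ⋃ n ∈ [k, d k], C n`. -/
def cov (C : ℕ → ℕ × Finset Node) (d : ℕ → ℕ) (m : ℕ) : Set Node :=
  {s | ∀ k, m ≤ k → k ≤ s.length → ∃ n, k ≤ n ∧ n ≤ d k ∧ mt (C n).2 s}

end Pool.Agent.Helper32.HM
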