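import Pool.Agent.Helper26.PN.Defs
import Pool.Agent.Helper32.HM.TreeDefs2

/-!
# Project HM: definitions for the reduction of arbitrary Polish spaces to the Cantor space
-/

set_option autoImplicit false

namespace Pool.Agent.Helper32.HM

open Set Classical

/-- The tree of a set of reals. -/
def treeOf (K : Set (ℕ → Bool)) : Set Node := {s | ∃ x ∈ K, PiNat.res x s.length = s}

/-- `ℕ → ℕ` in `ℕ → Bool`: the set of codes of the finite initial segments. -/
noncomputable def iota (y : ℕ → ℕ) : ℕ → Bool :=
  fun c => decide (∃ k, c = Encodable.encode (PiNat.res y k))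

end Pool.Agent.Helper32.HM
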