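import Pool.Agent.Helper32.HM.RawDefs

/-!
# Project HM: the poset `Pos I`, its generic reals, evaluation of names
-/

set_option autoImplicit false

namespace Pool.Agent.Helper32.HM

open Set Filter Classical

variable {I : Type} [LinearOrder I] [WellFoundedLT I]

/-- The part of the poset below the stage `i`. -/
def psub (i : I) : Set (Pos I) := {p | Raw.Gd i p.raw}

instance : Preorder (Pos I) where
  le p q := Raw.le p.raw q.raw
  le_refl p := Raw.le_refl p.raw
  le_trans _ _ _ h h' := Raw.le_trans h h'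

theorem pos_le_def {p q : Pos I} : p ≤ q ↔ Raw.le p.raw q.raw := Iff.rfl

/-- The part of a filter consisting of raw conditions. -/
def rawOf (G : GF (Pos I)) : Set (Raw I) := {r | ∃ p ∈ G.carrier, p.raw = r}

/-- The `i`-th generic real: `gx i G n = w` if a condition `one i s`, with `s n = w`, is in `G`. -/
noncomputable def gx (i : I) (G : GF (Pos I)) (n : ℕ) : ℕ :=
  if h : ∃ s : List ℕ, n < s.length ∧ Raw.one i s ∈ rawOf G then h.choose.getD n 0 else 0

/-- The evaluation of a raw name: the least `v n k` with `c n k ∈ G`. -/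
noncomputable def ev (c : ℕ → ℕ → Raw I) (v : ℕ → ℕ → ℕ) (G : GF (Pos I))
    (n : ℕ) : ℕ :=
  sInf {w | ∃ k, c n k ∈ rawOf G ∧ w = v n k}

/-- A good raw name of the stage `i`. -/
def GdN (i : I) (c : ℕ → ℕ → Raw I) : Prop :=
  ∀ n, (∀ k, Raw.Gd i (c n k)) ∧
    ∀ q, Raw.Gd i q → ∃ k u, Raw.Gd i u ∧ Raw.le u q ∧ Raw.le u (c n k)

end Pool.Agent.Helper32.HM
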