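import Pool.Agent.Helper32.HM.GenDefs

/-!
# Project HM: the finite support iteration of Hechler forcing

Raw conditions are finite lists of entries `(i, s, names)`, `i` an index, `s` a stem (a finite
sequence of naturals), and finitely many names (numbered `a < m`) of functions `ω → ω`: the `a`-th
name says `f n ≤ v a n k` if the condition `c a n k` is in the generic filter. The entries are
listed with decreasing indices.
-/

set_option autoImplicit false

namespace Pool.Agent.Helper32.HM

open Set Filter

/-- Raw conditions. -/
inductive Raw (I : Type) : Type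
  | nil : Raw I
  | cons (i : I) (s : List ℕ) (m : ℕ) (c : ℕ → ℕ → ℕ → Raw I) (v : ℕ → ℕ → ℕ → ℕ)
      (p : Raw I) : Raw I

namespace Raw

variable {I : Type} [LinearOrder I]

/-- The order: `le p q` says that `p` is stronger than `q`. (Structural recursion on `p`.) -/
def le : Raw I → Raw I → Prop
  | .nil, .nil => True
  | .nil, .cons _ _ _ _ _ _ => False
  | .cons _ _ _ _ _ _, .nil => True
  | .cons i s m c v p, .cons j t m' c' v' q =>
      (j < i ∧ le p (.cons j t m' c' v' q)) ∨
      (j = i ∧ le p q ∧ t <+: s ∧ (∀ a' < m', ∃ a < m, c a = c' a' ∧ v a = v' a') ∧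
        ∀ a' < m', ∀ n, t.length ≤ n → n < s.length →
          ∃ k, le p (c' a' n k) ∧ v' a' n k ≤ s.getD n 0)

/-- All indices of entries on the list are below `i` (it is enough to look at the first one, as
good conditions have decreasing indices). -/
def bel (i : I) : Raw I → Prop
  | .nil => True
  | .cons j _ _ _ _ _ => j < i

/-- Good conditions with indices below `i`: the indices decrease, all conditions in names are
good below the index, and for each name and each `n` the conditions `c a n k`, `k ∈ ω`, are
predense below the index. -/
def Gd [WellFoundedLT I] : I → Raw I → Prop :=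
  WellFounded.fix (C := fun _ => Raw I → Prop) wellFounded_lt fun i ih r =>
    match r with
    | .nil => True
    | .cons j _ m c _ p => ∃ h : j < i, ih j h p ∧ (∀ a n k, ih j h (c a n k)) ∧
        ∀ a < m, ∀ n, ∀ q, ih j h q → ∃ k u, ih j h u ∧ le u q ∧ le u (c a n k)

/-- The restriction to the stage `i`. -/
def res (i : I) : Raw I → Raw I
  | .nil => .nil
  | .cons j s m c v p => if j < i then .cons j s m c v p else res i p

/-- The amalgamation of `q` (below the stage `i`) with the part of the second condition from the
stage `i` on. -/
def amal (i : I) (q : Raw I) : Raw I → Raw I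
  | .nil => q
  | .cons j s m c v p => if j < i then q else .cons j s m c v (amal i q p)

/-- `p` has the entry `(i, s)`. -/
def ent (i : I) (s : List ℕ) : Raw I → Prop
  | .nil => False
  | .cons j t _ _ _ p => (j = i ∧ t = s) ∨ ent i s p

/-- The list of the indices and stems. -/
def stems : Raw I → List (I × List ℕ)
  | .nil => []
  | .cons j t _ _ _ p => (j, t) :: stems p

/-- The condition with the only entry `(i, s)`, without names. -/
def one (i : I) (s : List ℕ) : Raw I := .cons i s 0 (fun _ _ _ => .nil) (fun _ _ _ => 0) .nil

theorem le_nil (p : Raw I) : le p .nil := by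
  cases p <;> simp [le]

theorem le_refl (p : Raw I) : le p p := by
  induction p with
  | nil => simp [le]
  | cons i s m c v p _ ih =>
    simp only [le]
    refine Or.inr ⟨trivial, ih, List.prefix_refl _, fun a ha => ⟨a, ha, rfl, rfl⟩, ?_⟩
    intro a _ n h1 h2
    omega

theorem le_trans {p q r : Raw I} (h : le p q) (h' : le q r) : le p r := by
  induction p generalizing q r with
  | nil =>
    cases q with
    | nil => exact h'
    | cons => simp [le] at h
  | cons i s m c v p _ ih =>
    cases q with
    | nil =>
      cases r with
      | nil => simp [le]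
      | cons => simp [le] at h'
    | cons j t m' c' v' q =>
      cases r with
      | nil => simp [le]
      | cons k u m'' c'' v'' r =>
        simp only [le] at h
        have h'2 := h'
        simp only [le] at h'
        simp only [le]
        rcases h with ⟨hji, hpq⟩ | ⟨rfl, hpq, hts, hn, hs⟩
        · left
          refine ⟨?_, ih hpq h'2⟩
          rcases h' with ⟨h1, -⟩ | ⟨h1, -⟩
          · exact h1.trans hji
          · exact h1 ▸ hji
        · rcases h' with ⟨hkj, hqr⟩ | ⟨rfl, hqr, hut, hn', hs'⟩
          · left
            exact ⟨hkj, ih hpq hqr⟩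
          · right
            refine ⟨rfl, ih hpq hqr, hut.trans hts, ?_, ?_⟩
            · intro a'' ha''
              obtain ⟨a', ha', e1, e2⟩ := hn' a'' ha''
              obtain ⟨a, ha, e3, e4⟩ := hn a' ha'
              exact ⟨a, ha, e3.trans e1, e4.trans e2⟩
            · intro a'' ha'' n h1 h2
              by_cases h3 : n < t.length
              · obtain ⟨b, hb, hb'⟩ := hs' a'' ha'' n h1 h3
                refine ⟨b, ih hpq hb, ?_⟩
                obtain ⟨z, rfl⟩ := hts
                rw [List.getD_append _ _ _ _ h3]
                exact hb'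
              · obtain ⟨a', ha', e1, e2⟩ := hn' a'' ha''
                obtain ⟨b, hb, hb'⟩ := hs a' ha' n (by omega) h2
                rw [e1] at hb
                rw [e2] at hb'
                exact ⟨b, hb, hb'⟩
theorem gd_nil [WellFoundedLT I] (i : I) : Gd i (.nil : Raw I) := by
  rw [Gd, WellFounded.fix_eq]
  trivial

theorem gd_cons [WellFoundedLT I] {i j : I} {s : List ℕ} {m : ℕ} {c : ℕ → ℕ → ℕ → Raw I}
    {v : ℕ → ℕ → ℕ → ℕ} {p : Raw I} :
    Gd i (.cons j s m c v p) ↔ j < i ∧ Gd j p ∧ (∀ a n k, Gd j (c a n k)) ∧
      ∀ a < m, ∀ n, ∀ q, Gd j q → ∃ k u, Gd j u ∧ le u q ∧ le u (c a n k) := by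
  rw [Gd, WellFounded.fix_eq]
  simp only [exists_prop]

end Raw

/-- The poset: the finite support iteration of Hechler forcing along `I`. -/
structure Pos (I : Type) [LinearOrder I] [WellFoundedLT I] where
  raw : Raw I
  good : ∃ i, Raw.Gd i raw

end Pool.Agent.Helper32.HM
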